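import Mathlib

set_option autoImplicit false

namespace Pool.Agent.Results.MP_af1bb3_co.OrderLogLog

open Finset

/-- `S` is a dominating set of `G`. -/
def IsDominating {V : Type} (G : SimpleGraph V) (S : Finset V) : Prop :=
  ∀ v : V, v ∈ S ∨ ∃ u ∈ S, G.Adj v u

/-- The domination number. -/
noncomputable def domNumber {V : Type} (G : SimpleGraph V) : ℕ :=
  sInf {m : ℕ | ∃ S : Finset V, IsDominating G S ∧ S.card = m}

/-- The connected domination number: least size of a dominating set inducing a connected graph. -/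
noncomputable def connDomNumber {V : Type} (G : SimpleGraph V) : ℕ :=
  sInf {m : ℕ | ∃ S : Finset V, IsDominating G S ∧ (G.induce (S : Set V)).Connected ∧ S.card = m}

/-- `M n k`: maximum of `γ_c(G) - γ(G)` over connected graphs `G` on `n` vertices with minimum
degree at least `k`. -/
noncomputable def M (n k : ℕ) : ℕ :=
  sSup {m : ℕ | ∃ (V : Type) (_ : Fintype V) (G : SimpleGraph V), Fintype.card V = n ∧
    G.Connected ∧ (∀ v : V, k ≤ (G.neighborSet v).ncard) ∧ m = connDomNumber G - domNumber G}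

lemma centralBinom_big (g : ℕ) (hg : 2 ≤ g) : 2 * g + 1 ≤ (2 * g).choose g := by
  rw [← Nat.centralBinom_eq_two_mul_choose]
  induction g, hg using Nat.le_induction with
  | base => decide
  | succ n hn ih =>
    have h := Nat.succ_mul_centralBinom_succ n
    by_contra hcon
    push Not at hcon
    have h1 : (n + 1) * (n + 1).centralBinom ≤ (n + 1) * (2 * (n + 1)) :=
      Nat.mul_le_mul_left _ (by omega)
    have h2 : 2 * (2 * n + 1) * (2 * n + 1) ≤ 2 * (2 * n + 1) * n.centralBinom :=
      Nat.mul_le_mul_left _ ih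
    nlinarith

/-! ### The construction -/

section construction

variable (L g q m e : ℕ)

abbrev Part : Type := Fin (4 * g) × Fin q
abbrev DD : Type := {d : Finset (Fin (4 * g)) // d.card = g}
abbrev FF : Type := {f : Finset (Part g q) // f.card = g * q}
abbrev WW : Type := (Fin L × Part g q × Fin m) ⊕ Fin e
abbrev VV : Type := WW L g q m e ⊕ (Fin L × (DD g ⊕ DD g × FF g q))

/-- One-sided adjacency relation. -/
def rel : VV L g q m e → VV L g q m e → Prop
  | Sum.inl _, Sum.inl _ => True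
  | Sum.inl (Sum.inl (i, p, _)), Sum.inr (j, Sum.inl d) => i = j ∧ p.1 ∈ d.1
  | Sum.inl (Sum.inl (i, p, _)), Sum.inr (j, Sum.inr (_, f)) => i = j ∧ p ∈ f.1
  | Sum.inr (i, Sum.inl d), Sum.inr (j, Sum.inr (d', _)) => i = j ∧ d = d'
  | _, _ => False

def GG : SimpleGraph (VV L g q m e) := SimpleGraph.fromRel (rel L g q m e)

/-- classes of vertices -/
def cls : VV L g q m e → Option (Fin L) × Option (DD g)
  | Sum.inl (Sum.inl (i, _, _)) => (some i, none)
  | Sum.inl (Sum.inr _) => (none, none)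
  | Sum.inr (i, Sum.inl d) => (some i, some d)
  | Sum.inr (i, Sum.inr (d, _)) => (some i, some d)

variable {L g q m e}

lemma closed_all {V : Type} (G : SimpleGraph V) (hconn : G.Connected) (P : V → Prop) (a : V)
    (ha : P a) (hstep : ∀ x y, P x → G.Adj x y → P y) : ∀ w, P w := by
  intro w
  obtain ⟨p⟩ := hconn.preconnected a w
  induction p with
  | nil => exact ha
  | cons h p ih => exact ih (hstep _ _ ha h)

/-- neighbours of `(d,f)` -/
lemma adj_df {i : Fin L} {d : DD g} {f : FF g q} {v : VV L g q m e}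
    (h : (GG L g q m e).Adj (Sum.inr (i, Sum.inr (d, f))) v) :
    v = Sum.inr (i, Sum.inl d) ∨ ∃ p t, p ∈ f.1 ∧ v = Sum.inl (Sum.inl (i, p, t)) := by
  rw [GG, SimpleGraph.fromRel_adj] at h
  obtain ⟨_, h⟩ := h
  rcases v with (⟨j, p, t⟩ | x) | ⟨j, d' | ⟨d', f'⟩⟩
  · simp only [rel, false_or] at h
    right
    exact ⟨p, t, h.2, by rw [h.1]⟩
  · simp [rel] at h
  · simp only [rel, false_or] at h
    left
    rw [h.1, h.2]
  · simp [rel] at h

/-- neighbours of `d` -/
lemma adj_d {i : Fin L} {d : DD g} {v : VV L g q m e}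
    (h : (GG L g q m e).Adj (Sum.inr (i, Sum.inl d)) v) :
    (∃ f, v = Sum.inr (i, Sum.inr (d, f))) ∨
      ∃ p t, p.1 ∈ d.1 ∧ v = Sum.inl (Sum.inl (i, p, t)) := by
  rw [GG, SimpleGraph.fromRel_adj] at h
  obtain ⟨_, h⟩ := h
  rcases v with (⟨j, p, t⟩ | x) | ⟨j, d' | ⟨d', f'⟩⟩
  · simp only [rel, false_or] at h
    right
    exact ⟨p, t, h.2, by rw [h.1]⟩
  · simp [rel] at h
  · simp [rel] at h
  · simp only [rel, or_false] at h
    left
    exact ⟨f', by rw [h.1, h.2]⟩

lemma adj_WW {a b : WW L g q m e} (h : a ≠ b) :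
    (GG L g q m e).Adj (Sum.inl a) (Sum.inl b) := by
  rw [GG, SimpleGraph.fromRel_adj]
  refine ⟨by simpa using h, Or.inl ?_⟩
  rcases a with a | a <;> rcases b with b | b <;> simp [rel]

lemma adj_Wd {i : Fin L} {p : Part g q} {t : Fin m} {d : DD g} (h : p.1 ∈ d.1) :
    (GG L g q m e).Adj (Sum.inl (Sum.inl (i, p, t))) (Sum.inr (i, Sum.inl d)) := by
  rw [GG, SimpleGraph.fromRel_adj]
  exact ⟨by simp, Or.inl ⟨rfl, h⟩⟩

lemma adj_Wf {i : Fin L} {p : Part g q} {t : Fin m} {d : DD g} {f : FF g q} (h : p ∈ f.1) :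
    (GG L g q m e).Adj (Sum.inl (Sum.inl (i, p, t))) (Sum.inr (i, Sum.inr (d, f))) := by
  rw [GG, SimpleGraph.fromRel_adj]
  exact ⟨by simp, Or.inl ⟨rfl, h⟩⟩

lemma adj_ddf {i : Fin L} {d : DD g} {f : FF g q} :
    (GG L g q m e).Adj (Sum.inr (i, Sum.inl d)) (Sum.inr (i, Sum.inr (d, f))) := by
  rw [GG, SimpleGraph.fromRel_adj]
  exact ⟨by simp, Or.inl ⟨rfl, rfl⟩⟩

/-- number of elements of `X` in a class -/
noncomputable def cnt (X : Finset (VV L g q m e)) (o : Option (Fin L) × Option (DD g)) : ℕ := by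
  classical exact (X.filter (fun v => cls L g q m e v = o)).card

lemma card_eq_cnt (X : Finset (VV L g q m e)) :
    X.card = ∑ o : Option (Fin L) × Option (DD g), cnt X o := by
  classical
  unfold cnt
  exact Finset.card_eq_sum_card_fiberwise (fun _ _ => Finset.mem_coe.mpr (Finset.mem_univ _))

/-- The key local estimate. -/
lemma region_bound (hg : 2 ≤ g) (hq : Fintype.card (DD g) + 2 * g + 1 ≤ q)
    (X : Finset (VV L g q m e)) (hX : IsDominating (GG L g q m e) X)
    (hconn : ((GG L g q m e).induce (X : Set (VV L g q m e))).Connected) (i : Fin L) :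
    Fintype.card (DD g) + 2 * g + 1 ≤
      cnt X (some i, none) + ∑ d : DD g, cnt X (some i, some d) := by
  classical
  by_contra hcon
  push Not at hcon
  set a := cnt X (some i, none) with ha
  -- touched parts
  set A : Finset (VV L g q m e) := X.filter (fun v => cls L g q m e v = (some i, none)) with hA
  have hAcard : A.card = a := by rw [ha, cnt]
  let prt : VV L g q m e → Part g q := fun v =>
    match v with
    | Sum.inl (Sum.inl (_, p, _)) => p
    | _ => (⟨0, by omega⟩, ⟨0, by omega⟩)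
  set tP : Finset (Part g q) := A.image prt with htP
  have htPc : tP.card ≤ a := by rw [← hAcard]; exact Finset.card_image_le
  set tB : Finset (Fin (4 * g)) := tP.image Prod.fst with htB
  have htBc : tB.card ≤ a := le_trans Finset.card_image_le htPc
  have hmemP : ∀ p t, (Sum.inl (Sum.inl (i, p, t)) : VV L g q m e) ∈ X → p ∈ tP := by
    intro p t h
    rw [htP, Finset.mem_image]
    refine ⟨Sum.inl (Sum.inl (i, p, t)), ?_, rfl⟩
    rw [hA, Finset.mem_filter]
    exact ⟨h, rfl⟩
  have hmemB : ∀ p t, (Sum.inl (Sum.inl (i, p, t)) : VV L g q m e) ∈ X → p.1 ∈ tB := by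
    intro p t h
    rw [htB, Finset.mem_image]
    exact ⟨p, hmemP p t h, rfl⟩
  have hch := centralBinom_big g hg
  have hDpos : 2 ≤ Fintype.card (DD g) := by
    rw [Fintype.card_finset_len, Fintype.card_fin]
    have h1 : (2 * g).choose g ≤ (4 * g).choose g := Nat.choose_le_choose g (by omega)
    omega
  -- two untouched f
  obtain ⟨f1, f2, hf12, hf1, hf2⟩ : ∃ f1 f2 : FF g q, f1 ≠ f2 ∧ (∀ p ∈ f1.1, p ∉ tP) ∧
      (∀ p ∈ f2.1, p ∉ tP) := by
    have hcardc : g * q + 1 ≤ (tPᶜ).card := by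
      rw [Finset.card_compl, Fintype.card_prod, Fintype.card_fin, Fintype.card_fin]
      have : a ≤ Fintype.card (DD g) + 2 * g := by omega
      have h4 : 4 * g * q = g * q + 3 * g * q := by ring
      have h5 : q ≤ 3 * g * q := by nlinarith
      omega
    obtain ⟨T, hT, hTc⟩ := Finset.exists_subset_card_eq hcardc
    have h2 : 1 < T.card := by
      rw [hTc]
      have : 0 < g * q := Nat.mul_pos (by omega) (by omega)
      omega
    obtain ⟨x, hx, y, hy, hxy⟩ := Finset.one_lt_card.mp h2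
    refine ⟨⟨T.erase x, ?_⟩, ⟨T.erase y, ?_⟩, ?_, ?_, ?_⟩
    · rw [Finset.card_erase_of_mem hx, hTc]; omega
    · rw [Finset.card_erase_of_mem hy, hTc]; omega
    · intro h
      have h3 : T.erase x = T.erase y := by simpa using h
      have h4 : x ∈ T.erase y := Finset.mem_erase.mpr ⟨hxy, hx⟩
      rw [← h3] at h4
      simp at h4
    · intro p hp
      exact Finset.mem_compl.mp (hT (Finset.mem_of_mem_erase hp))
    · intro p hp
      exact Finset.mem_compl.mp (hT (Finset.mem_of_mem_erase hp))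
  -- every unit is hit
  have hunit : ∀ (d : DD g) (f : FF g q), (∀ p ∈ f.1, p ∉ tP) →
      (Sum.inr (i, Sum.inl d) : VV L g q m e) ∈ X ∨
      (Sum.inr (i, Sum.inr (d, f)) : VV L g q m e) ∈ X := by
    intro d f hf
    rcases hX (Sum.inr (i, Sum.inr (d, f))) with h | ⟨u, hu, hadj⟩
    · right; exact h
    · left
      rcases adj_df hadj with rfl | ⟨p, t, hp, rfl⟩
      · exact hu
      · exact absurd (hmemP p t hu) (hf p hp)
  have hcls : ∀ d : DD g, ∀ v ∈ X, cls L g q m e v = (some i, some d) →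
      1 ≤ cnt X (some i, some d) := by
    intro d v hv hc
    unfold cnt
    exact Finset.card_pos.mpr ⟨v, Finset.mem_filter.mpr ⟨hv, hc⟩⟩
  have hcls2 : ∀ d : DD g, ∀ v ∈ X, ∀ w ∈ X, v ≠ w → cls L g q m e v = (some i, some d) →
      cls L g q m e w = (some i, some d) → 2 ≤ cnt X (some i, some d) := by
    intro d v hv w hw hvw hc hc'
    unfold cnt
    exact Finset.one_lt_card.mpr ⟨v, Finset.mem_filter.mpr ⟨hv, hc⟩, w,
      Finset.mem_filter.mpr ⟨hw, hc'⟩, hvw⟩
  have hy1 : ∀ d : DD g, 1 ≤ cnt X (some i, some d) := by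
    intro d
    rcases hunit d f1 hf1 with h | h
    · exact hcls d _ h rfl
    · exact hcls d _ h rfl
  have hsum1 : Fintype.card (DD g) ≤ ∑ d : DD g, cnt X (some i, some d) := by
    have := Finset.sum_le_sum (fun d (_ : d ∈ (Finset.univ : Finset (DD g))) => hy1 d)
    simpa using this
  have hac : a ≤ 2 * g := by omega
  -- untouched d
  set D0 : Finset (DD g) := Finset.univ.filter (fun d => ∀ b ∈ d.1, b ∉ tB) with hD0
  have hD0card : 2 * g + 1 ≤ D0.card := by
    have h1 : 2 * g ≤ (tBᶜ).card := by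
      rw [Finset.card_compl, Fintype.card_fin]
      omega
    have h2 : (Finset.powersetCard g (tBᶜ)).card ≤ D0.card := by
      rw [← Finset.card_map (Function.Embedding.subtype
        (fun d : Finset (Fin (4 * g)) => d.card = g))]
      apply Finset.card_le_card
      intro s hs
      rw [Finset.mem_powersetCard] at hs
      rw [Finset.mem_map]
      refine ⟨⟨s, hs.2⟩, ?_, rfl⟩
      rw [hD0, Finset.mem_filter]
      exact ⟨Finset.mem_univ _, fun b hb => Finset.mem_compl.mp (hs.1 hb)⟩
    rw [Finset.card_powersetCard] at h2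
    have h3 : (2 * g).choose g ≤ (tBᶜ).card.choose g := Nat.choose_le_choose g h1
    omega
  have hy2 : ∀ d ∈ D0, 2 ≤ cnt X (some i, some d) := by
    intro d hd
    rw [hD0, Finset.mem_filter] at hd
    by_cases hdX : (Sum.inr (i, Sum.inl d) : VV L g q m e) ∈ X
    · by_contra hlt
      push Not at hlt
      -- only d in the unit
      have honly : ∀ v ∈ X, cls L g q m e v = (some i, some d) → v = Sum.inr (i, Sum.inl d) := by
        intro v hv hc
        by_contra hne
        have := hcls2 d v hv _ hdX hne hc rfl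
        omega
      have hall := closed_all _ hconn (fun w => w.1 = Sum.inr (i, Sum.inl d))
        ⟨Sum.inr (i, Sum.inl d), by simpa using hdX⟩ rfl (by
          rintro ⟨x, hx⟩ ⟨y, hy⟩ hxy hadj
          simp only at hxy
          subst hxy
          simp only [SimpleGraph.comap_adj, Function.Embedding.subtype_apply] at hadj
          rcases adj_d hadj with ⟨f, rfl⟩ | ⟨p, t, hp, rfl⟩
          · exact honly _ (by simpa using hy) rfl
          · exact absurd (hmemB p t (by simpa using hy)) (hd.2 _ hp))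
      -- another unit
      obtain ⟨d', hd'⟩ : ∃ d' : DD g, d' ≠ d :=
        Fintype.exists_ne_of_one_lt_card (by omega) d
      rcases hunit d' f1 hf1 with h | h
      · have := hall ⟨_, by simpa using h⟩
        simp at this
        exact hd' this
      · have := hall ⟨_, by simpa using h⟩
        simp at this
    · rcases hunit d f1 hf1 with h | h
      · exact absurd h hdX
      · rcases hunit d f2 hf2 with h' | h'
        · exact absurd h' hdX
        · exact hcls2 d _ h _ h' (by simpa using hf12) rfl rfl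
  have hsum2 : Fintype.card (DD g) + D0.card ≤ ∑ d : DD g, cnt X (some i, some d) := by
    have h1 : ∀ d : DD g, (1 + if d ∈ D0 then 1 else 0) ≤ cnt X (some i, some d) := by
      intro d
      by_cases hd : d ∈ D0
      · simp only [hd, if_true]; exact hy2 d hd
      · simp only [hd, if_false]; exact hy1 d
    have := Finset.sum_le_sum (fun d (_ : d ∈ (Finset.univ : Finset (DD g))) => h1 d)
    rw [Finset.sum_add_distrib] at this
    simpa using this
  omega

lemma lower_bound (hg : 2 ≤ g) (hq : Fintype.card (DD g) + 2 * g + 1 ≤ q)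
    (X : Finset (VV L g q m e)) (hX : IsDominating (GG L g q m e) X)
    (hconn : ((GG L g q m e).induce (X : Set (VV L g q m e))).Connected) :
    L * (Fintype.card (DD g) + 2 * g + 1) ≤ X.card := by
  rw [card_eq_cnt, Fintype.sum_prod_type, Fintype.sum_option]
  have h1 : ∀ i : Fin L, Fintype.card (DD g) + 2 * g + 1 ≤
      ∑ y : Option (DD g), cnt X (some i, y) := by
    intro i
    rw [Fintype.sum_option]
    exact region_bound hg hq X hX hconn i
  have h2 := Finset.sum_le_sum (fun i (_ : i ∈ (Finset.univ : Finset (Fin L))) => h1 i)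
  rw [Finset.sum_const, Finset.card_univ, Fintype.card_fin, smul_eq_mul] at h2
  omega

lemma connected (hg : 1 ≤ g) (hq : 1 ≤ q) (hm : 1 ≤ m) (hL : 1 ≤ L) :
    (GG L g q m e).Connected := by
  have hw : ∃ w0 : WW L g q m e, True :=
    ⟨Sum.inl (⟨0, by omega⟩, (⟨0, by omega⟩, ⟨0, by omega⟩), ⟨0, by omega⟩), trivial⟩
  obtain ⟨w0, -⟩ := hw
  have hW : ∀ w : WW L g q m e, (GG L g q m e).Reachable (Sum.inl w) (Sum.inl w0) := by
    intro w
    by_cases h : w = w0
    · rw [h]
    · exact (adj_WW h).reachable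
  have hD : ∀ (i : Fin L) (d : DD g),
      (GG L g q m e).Reachable (Sum.inr (i, Sum.inl d)) (Sum.inl w0) := by
    intro i d
    have hne : d.1.Nonempty := by
      rw [← Finset.card_pos, d.2]; omega
    obtain ⟨b, hb⟩ := hne
    have h1 : (GG L g q m e).Adj
        (Sum.inl (Sum.inl (i, (b, ⟨0, by omega⟩), ⟨0, by omega⟩))) (Sum.inr (i, Sum.inl d)) :=
      adj_Wd (by simpa using hb)
    exact h1.symm.reachable.trans (hW _)
  have hall : ∀ v, (GG L g q m e).Reachable v (Sum.inl w0) := by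
    rintro (w | ⟨i, d | ⟨d, f⟩⟩)
    · exact hW w
    · exact hD i d
    · exact (adj_ddf.symm.reachable).trans (hD i d)
  exact { preconnected := fun u v => (hall u).trans (hall v).symm
          nonempty := ⟨Sum.inl w0⟩ }

lemma le_ncard_of_image {V : Type} [Fintype V] {α : Type} (T : Finset α) (φ : α → V)
    (hφ : Set.InjOn φ T) (s : Set V) (hs : ∀ x ∈ T, φ x ∈ s) : T.card ≤ s.ncard := by
  classical
  have h1 : ((T.image φ : Finset V) : Set V) ⊆ s := by
    intro y hy
    rw [Finset.mem_coe, Finset.mem_image] at hy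
    obtain ⟨x, hx, rfl⟩ := hy
    exact hs x hx
  have h2 := Set.ncard_le_ncard h1 (Set.toFinite s)
  rw [Set.ncard_coe_finset, Finset.card_image_of_injOn hφ] at h2
  exact h2

lemma degree_ge (k : ℕ) (hg : 1 ≤ g) (hq : 1 ≤ q) (hm : 1 ≤ m) (hL : 1 ≤ L)
    (hk : k ≤ g * q * m) (v : VV L g q m e) : k ≤ ((GG L g q m e).neighborSet v).ncard := by
  classical
  rcases v with w | ⟨i, d | ⟨d, f⟩⟩
  · have h1 := le_ncard_of_image (Finset.univ.erase w) (fun x => (Sum.inl x : VV L g q m e))
      (fun a _ b _ h => by simpa using h) ((GG L g q m e).neighborSet (Sum.inl w)) (by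
        intro x hx
        exact adj_WW (Ne.symm (Finset.ne_of_mem_erase hx)))
    rw [Finset.card_erase_of_mem (Finset.mem_univ _), Finset.card_univ] at h1
    have h2 : Fintype.card (WW L g q m e) = L * (4 * g * q * m) + e := by
      simp [Fintype.card_sum, Fintype.card_prod]
    rw [h2] at h1
    have h3 : 1 ≤ g * q * m := Nat.mul_pos (Nat.mul_pos hg hq) hm
    have h4 : 4 * g * q * m = 4 * (g * q * m) := by ring
    have h5 : 4 * g * q * m ≤ L * (4 * g * q * m) := Nat.le_mul_of_pos_left _ hL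
    omega
  · have h1 := le_ncard_of_image (d.1 ×ˢ (Finset.univ : Finset (Fin q × Fin m)))
      (fun x => (Sum.inl (Sum.inl (i, (x.1, x.2.1), x.2.2)) : VV L g q m e))
      (fun a _ b _ h => by
        simp only [Sum.inl.injEq, Prod.mk.injEq, true_and] at h
        exact Prod.ext h.1.1 (Prod.ext h.1.2 h.2))
      ((GG L g q m e).neighborSet (Sum.inr (i, Sum.inl d))) (by
        intro x hx
        rw [Finset.mem_product] at hx
        exact (adj_Wd (by simpa using hx.1)).symm)
    rw [Finset.card_product, d.2, Finset.card_univ, Fintype.card_prod, Fintype.card_fin,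
      Fintype.card_fin, ← mul_assoc] at h1
    exact hk.trans h1
  · have h1 := le_ncard_of_image (f.1 ×ˢ (Finset.univ : Finset (Fin m)))
      (fun x => (Sum.inl (Sum.inl (i, x.1, x.2)) : VV L g q m e))
      (fun a _ b _ h => by
        simp only [Sum.inl.injEq, Prod.mk.injEq, true_and] at h
        exact Prod.ext h.1 h.2)
      ((GG L g q m e).neighborSet (Sum.inr (i, Sum.inr (d, f)))) (by
        intro x hx
        rw [Finset.mem_product] at hx
        exact (adj_Wf hx.1).symm)
    rw [Finset.card_product, f.2, Finset.card_univ, Fintype.card_fin] at h1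
    exact hk.trans h1

lemma domNumber_le (hg : 1 ≤ g) (hq : 1 ≤ q) (hm : 1 ≤ m) (hL : 1 ≤ L) :
    domNumber (GG L g q m e) ≤ L * Fintype.card (DD g) + 1 := by
  classical
  have hw : ∃ w0 : WW L g q m e, True :=
    ⟨Sum.inl (⟨0, by omega⟩, (⟨0, by omega⟩, ⟨0, by omega⟩), ⟨0, by omega⟩), trivial⟩
  obtain ⟨w0, -⟩ := hw
  set S : Finset (VV L g q m e) := insert (Sum.inl w0)
    ((Finset.univ : Finset (Fin L × DD g)).image (fun x => Sum.inr (x.1, Sum.inl x.2))) with hS
  have h1 : S.card ≤ L * Fintype.card (DD g) + 1 := by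
    refine (Finset.card_insert_le _ _).trans ?_
    have h2 : ((Finset.univ : Finset (Fin L × DD g)).image
      (fun x => (Sum.inr (x.1, Sum.inl x.2) : VV L g q m e))).card ≤
        (Finset.univ : Finset (Fin L × DD g)).card := Finset.card_image_le
    rw [Finset.card_univ, Fintype.card_prod, Fintype.card_fin] at h2
    omega
  have h3 : IsDominating (GG L g q m e) S := by
    rintro (w | ⟨i, d | ⟨d, f⟩⟩)
    · by_cases h : w = w0
      · left; rw [h, hS]; simp
      · right
        exact ⟨Sum.inl w0, by rw [hS]; simp, adj_WW h⟩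
    · left; rw [hS]; simp
    · right
      exact ⟨Sum.inr (i, Sum.inl d), by rw [hS]; simp, adj_ddf.symm⟩
  have h4 : domNumber (GG L g q m e) ≤ S.card := Nat.sInf_le ⟨S, h3, rfl⟩
  exact h4.trans h1

end construction

lemma univ_mem {V : Type} [Fintype V] (G : SimpleGraph V) (h : G.Connected) :
    Fintype.card V ∈ {m : ℕ | ∃ S : Finset V, IsDominating G S ∧
      (G.induce (S : Set V)).Connected ∧ S.card = m} := by
  refine ⟨Finset.univ, fun v => Or.inl (Finset.mem_univ v), ?_, Finset.card_univ⟩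
  rw [Finset.coe_univ]
  exact (SimpleGraph.induceUnivIso G).connected_iff.mpr h

lemma bddAbove_M (n k : ℕ) :
    BddAbove {m : ℕ | ∃ (V : Type) (_ : Fintype V) (G : SimpleGraph V), Fintype.card V = n ∧
      G.Connected ∧ (∀ v : V, k ≤ (G.neighborSet v).ncard) ∧
      m = connDomNumber G - domNumber G} := by
  refine ⟨n, ?_⟩
  rintro m ⟨V, _, G, hn, hconn, _, rfl⟩
  refine (Nat.sub_le _ _).trans ?_
  rw [← hn]
  exact Nat.sInf_le (univ_mem G hconn)

/-- The general lower bound from the construction. -/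
lemma M_lower (L g q m e k n : ℕ) (hL : 1 ≤ L) (hg : 2 ≤ g) (hm : 1 ≤ m)
    (hq : (4 * g).choose g + 2 * g + 1 ≤ q) (hk : k ≤ g * q * m)
    (hn : n = L * (4 * g * q * m + (4 * g).choose g * (1 + (4 * g * q).choose (g * q))) + e) :
    L * (2 * g) ≤ M n k := by
  have hDc : Fintype.card (DD g) = (4 * g).choose g := by
    rw [Fintype.card_finset_len, Fintype.card_fin]
  have hFc : Fintype.card (FF g q) = (4 * g * q).choose (g * q) := by
    rw [Fintype.card_finset_len, Fintype.card_prod, Fintype.card_fin, Fintype.card_fin]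
  have hq' : Fintype.card (DD g) + 2 * g + 1 ≤ q := by rw [hDc]; exact hq
  have hconn : (GG L g q m e).Connected := connected (by omega) (by omega) hm hL
  have hcard : Fintype.card (VV L g q m e) = n := by
    rw [hn, Fintype.card_sum, Fintype.card_sum, Fintype.card_prod, Fintype.card_prod,
      Fintype.card_prod, Fintype.card_prod, Fintype.card_sum, Fintype.card_prod, hDc, hFc]
    simp only [Fintype.card_fin]
    ring
  have hdom := domNumber_le (L := L) (g := g) (q := q) (m := m) (e := e) (by omega) (by omega)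
    hm hL
  have hcd : L * (Fintype.card (DD g) + 2 * g + 1) ≤ connDomNumber (GG L g q m e) := by
    unfold connDomNumber
    obtain ⟨S, h1, h2, h3⟩ := Nat.sInf_mem (⟨_, univ_mem _ hconn⟩ :
      {m' : ℕ | ∃ S : Finset (VV L g q m e), IsDominating (GG L g q m e) S ∧
        ((GG L g q m e).induce (S : Set (VV L g q m e))).Connected ∧ S.card = m'}.Nonempty)
    rw [← h3]
    exact lower_bound hg hq' S h1 h2
  have hmem : connDomNumber (GG L g q m e) - domNumber (GG L g q m e) ∈
      {m : ℕ | ∃ (V : Type) (_ : Fintype V) (G : SimpleGraph V), Fintype.card V = n ∧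
      G.Connected ∧ (∀ v : V, k ≤ (G.neighborSet v).ncard) ∧
      m = connDomNumber G - domNumber G} :=
    ⟨_, inferInstance, GG L g q m e, hcard, hconn,
      degree_ge k (by omega) (by omega) hm hL hk, rfl⟩
  refine le_trans ?_ (le_csSup (bddAbove_M n k) hmem)
  have h5 : L * (Fintype.card (DD g) + 2 * g + 1) = L * Fintype.card (DD g) + L * (2 * g) + L := by
    ring
  omega

/-- For all `k` with `ln ln k ≥ 16` and all `n ≥ 6 (k+1)`:
`M(n,k) ≥ (1/96) ln ln k * n / (k+1)`. -/
theorem result (k n : ℕ) (hk : 16 ≤ Real.log (Real.log k)) (hn : 6 * (k + 1) ≤ n) :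
    1 / 96 * Real.log (Real.log k) * ((n : ℝ) / ((k : ℝ) + 1)) ≤ (M n k : ℝ) := by
  set lam := Real.log (Real.log k) with hlam
  obtain ⟨g, hg⟩ : ∃ g, g = ⌊lam / 8⌋₊ := ⟨_, rfl⟩
  have hg1 : (g : ℝ) ≤ lam / 8 := by rw [hg]; exact Nat.floor_le (by linarith)
  have hg2 : lam / 8 < (g : ℝ) + 1 := by rw [hg]; exact Nat.lt_floor_add_one _
  have hg3 : 2 ≤ g := by
    have : (1 : ℝ) < g := by linarith
    have : 1 < g := by exact_mod_cast this
    omega
  -- k is huge
  have hlogpos : 0 < Real.log k := by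
    by_contra h
    push Not at h
    rcases eq_or_lt_of_le h with h0 | h0
    · rw [hlam, h0, Real.log_zero] at hk; linarith
    · have h1 : 0 ≤ Real.log (k : ℝ) := by
        rcases Nat.eq_zero_or_pos k with h2 | h2
        · rw [h2]; simp
        · exact Real.log_nonneg (by exact_mod_cast h2)
      linarith
  have hkpos : 0 < k := by
    rcases Nat.eq_zero_or_pos k with h2 | h2
    · rw [h2] at hlogpos; simp at hlogpos
    · exact h2
  have hexp1 : Real.exp (8 * g) ≤ Real.log k := by
    rw [← Real.le_log_iff_exp_le hlogpos]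
    linarith
  have h2le : (2 : ℝ) ≤ Real.exp 1 := by
    have := Real.add_one_le_exp (1 : ℝ)
    linarith
  have htwo : ((2 ^ (8 * g) : ℕ) : ℝ) ≤ Real.log k := by
    refine le_trans ?_ hexp1
    push_cast
    have h3 : Real.exp (8 * g) = Real.exp 1 ^ (8 * g) := by
      rw [← Real.exp_nat_mul]
      push_cast
      ring_nf
    rw [h3]
    exact pow_le_pow_left₀ (by norm_num) h2le _
  have hkbig : 2 ^ (2 ^ (8 * g)) ≤ k := by
    have h4 : (2 : ℝ) ^ (2 ^ (8 * g)) ≤ k := by
      have h5 : Real.exp ((2 ^ (8 * g) : ℕ) : ℝ) ≤ k := by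
        rw [← Real.le_log_iff_exp_le (by exact_mod_cast hkpos)]
        exact htwo
      refine le_trans ?_ h5
      have h6 : Real.exp ((2 ^ (8 * g) : ℕ) : ℝ) = Real.exp 1 ^ (2 ^ (8 * g)) := by
        rw [← Real.exp_nat_mul, mul_one]
      rw [h6]
      exact pow_le_pow_left₀ (by norm_num) h2le _
    exact_mod_cast h4
  obtain ⟨q, hq⟩ : ∃ q, q = (4 * g).choose g + 2 * g + 1 := ⟨_, rfl⟩
  obtain ⟨K, hK⟩ : ∃ K, K = (4 * g).choose g * (1 + (4 * g * q).choose (g * q)) := ⟨_, rfl⟩
  obtain ⟨m, hm⟩ : ∃ m, m = k / (g * q) + 1 := ⟨_, rfl⟩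
  obtain ⟨n0, hn0⟩ : ∃ n0, n0 = 4 * g * q * m + K := ⟨_, rfl⟩
  have hchoose : (4 * g).choose g ≤ 2 ^ (4 * g) := Nat.choose_le_two_pow _ _
  have hsmall : 2 * g + 1 ≤ 2 ^ (4 * g) := by
    have h1 : 4 * g < 2 ^ (4 * g) := Nat.lt_two_pow_self
    omega
  have hq2 : q ≤ 2 ^ (4 * g + 1) := by
    rw [pow_succ]; omega
  have h4g : 4 * g ≤ 2 ^ (2 * g) := by
    have h1 : 2 * g < 2 ^ (2 * g) := Nat.lt_two_pow_self
    have h2 : 2 * g + 1 ≤ 2 ^ (2 * g) := h1
    -- use induction free bound
    have h3 : ∀ g : ℕ, 2 ≤ g → 4 * g ≤ 2 ^ (2 * g) := by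
      intro g hg
      induction g, hg using Nat.le_induction with
      | base => decide
      | succ t ht ih =>
        have : 2 ^ (2 * (t + 1)) = 4 * 2 ^ (2 * t) := by ring
        omega
    exact h3 g hg3
  have hE : 4 * g + 1 + 4 * g * q ≤ 2 ^ (8 * g) := by
    have h1 : 4 * g * q ≤ 2 ^ (2 * g) * 2 ^ (4 * g + 1) := Nat.mul_le_mul h4g hq2
    have h2 : 2 ^ (2 * g) * 2 ^ (4 * g + 1) = 2 * 2 ^ (6 * g) := by ring
    have h3 : 4 * g + 1 ≤ 2 * 2 ^ (6 * g) := by
      have : 2 ^ (2 * g) ≤ 2 ^ (6 * g) := Nat.pow_le_pow_right (by norm_num) (by omega)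
      have : 1 ≤ 2 ^ (6 * g) := Nat.one_le_two_pow
      omega
    have h4 : 2 ^ (8 * g) = 2 ^ (6 * g) * 2 ^ (2 * g) := by ring
    have h5 : 4 ≤ 2 ^ (2 * g) := by omega
    have h6 : 2 ^ (6 * g) * 4 ≤ 2 ^ (6 * g) * 2 ^ (2 * g) := Nat.mul_le_mul_left _ h5
    omega
  have hKk : K ≤ k := by
    have h1 : (4 * g * q).choose (g * q) ≤ 2 ^ (4 * g * q) := Nat.choose_le_two_pow _ _
    have h2 : K ≤ 2 ^ (4 * g) * (2 ^ (4 * g * q) * 2) := by
      rw [hK]
      apply Nat.mul_le_mul hchoose
      have : 1 ≤ 2 ^ (4 * g * q) := Nat.one_le_two_pow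
      omega
    have h3 : 2 ^ (4 * g) * (2 ^ (4 * g * q) * 2) = 2 ^ (4 * g + 1 + 4 * g * q) := by ring
    rw [h3] at h2
    exact h2.trans ((Nat.pow_le_pow_right (by norm_num) hE).trans hkbig)
  have hgqk : 4 * g * q ≤ k := by
    have h1 : 2 ^ (8 * g) < 2 ^ (2 ^ (8 * g)) := Nat.lt_two_pow_self
    omega
  have hgqpos : 0 < g * q := Nat.mul_pos (by omega) (by omega)
  have hdiv : g * q * (k / (g * q)) ≤ k := Nat.mul_div_le k (g * q)
  have hkm : k ≤ g * q * m := by
    rw [hm]
    exact (Nat.lt_mul_div_succ k hgqpos).le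
  have hgqm : g * q * m ≤ k + g * q := by
    rw [hm, mul_add, mul_one]
    omega
  have hmpos : 0 < m := by rw [hm]; exact Nat.succ_pos _
  have hn0le : n0 ≤ 6 * (k + 1) := by
    have h1 : 4 * g * q * m = 4 * (g * q * m) := by ring
    have h2 : 4 * g * q = 4 * (g * q) := by ring
    have h3 : 4 * (g * q) ≤ k := h2 ▸ hgqk
    rw [hn0, h1]
    generalize g * q * m = A at hgqm ⊢
    generalize g * q = B at hgqm h3
    clear hdiv
    omega
  have hn0pos : 0 < n0 := by
    rw [hn0]
    have : 0 < 4 * g * q * m := by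
      have h2 : 0 < 4 * g * q := Nat.mul_pos (by omega) (by omega)
      exact Nat.mul_pos h2 hmpos
    exact Nat.lt_of_lt_of_le this (Nat.le_add_right _ _)
  obtain ⟨L, hL⟩ : ∃ L, L = n / n0 := ⟨_, rfl⟩
  have hL1 : 1 ≤ L := by
    rw [hL]
    exact (Nat.one_le_div_iff hn0pos).mpr (by omega)
  have hM := M_lower L g q m (n % n0) k n hL1 hg3 hmpos (le_of_eq hq.symm) hkm (by
    rw [← hK, ← hn0, hL, mul_comm]
    exact (Nat.div_add_mod n n0).symm)
  have hnL : n < n0 * (L + 1) := by
    rw [hL]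
    exact Nat.lt_mul_div_succ n hn0pos
  have hnL2 : (n : ℝ) ≤ 12 * ((k : ℝ) + 1) * L := by
    have h1 : n ≤ 12 * (k + 1) * L := by
      have h2 : n0 * (L + 1) ≤ n0 * (2 * L) := Nat.mul_le_mul_left _ (by omega)
      have h3 : n0 * (2 * L) ≤ 6 * (k + 1) * (2 * L) := Nat.mul_le_mul_right _ hn0le
      have h4 : 6 * (k + 1) * (2 * L) = 12 * (k + 1) * L := by ring
      omega
    have h2 : (n : ℝ) ≤ ((12 * (k + 1) * L : ℕ) : ℝ) := by exact_mod_cast h1
    push_cast at h2
    exact h2
  have hMr : (L : ℝ) * (2 * g) ≤ (M n k : ℝ) := by exact_mod_cast hM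
  have hk1 : (0 : ℝ) < (k : ℝ) + 1 := by positivity
  have h7 : (n : ℝ) / ((k : ℝ) + 1) ≤ 12 * L := by
    rw [div_le_iff₀ hk1]
    linarith
  have h8 : 0 ≤ (n : ℝ) / ((k : ℝ) + 1) := by positivity
  calc 1 / 96 * lam * ((n : ℝ) / ((k : ℝ) + 1)) ≤ 1 / 96 * lam * (12 * L) :=
        mul_le_mul_of_nonneg_left h7 (by linarith)
    _ = (lam / 8) * L := by ring
    _ ≤ (2 * g) * L := by
        apply mul_le_mul_of_nonneg_right _ (by positivity)
        have : (2 : ℝ) ≤ g := by exact_mod_cast hg3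
        linarith
    _ = (L : ℝ) * (2 * g) := by ring
    _ ≤ (M n k : ℝ) := hMr

end Pool.Agent.Results.MP_af1bb3_co.OrderLogLog
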